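import Mathlib

set_option autoImplicit false

open Cardinal Set
open scoped Pointwise

namespace Pool.Agent.Results.MP_e349a0_al.TwoSidedPartition

universe u

/-- `A` is left `l`-large: there is `F` with `|F| < l` and `G = F A`. -/
def IsLeftLarge {G : Type u} [Group G] (l : Cardinal.{u}) (A : Set G) : Prop :=
  ∃ F : Set G, #F < l ∧ F * A = Set.univ

/-- `A` is right `l`-large: there is `F` with `|F| < l` and `G = A F`. -/
def IsRightLarge {G : Type u} [Group G] (l : Cardinal.{u}) (A : Set G) : Prop :=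
  ∃ F : Set G, #F < l ∧ A * F = Set.univ

/-- `A` is `l`-large: it is both left and right `l`-large. -/
def IsLarge {G : Type u} [Group G] (l : Cardinal.{u}) (A : Set G) : Prop :=
  IsLeftLarge l A ∧ IsRightLarge l A

/-! ### Sets closed under countably many binary operations -/

section Closed

variable {G : Type u}

/-- closed under all operations -/
def Cl (ops : ℕ → G → G → G) (S : Set G) : Prop :=
  ∀ k, ∀ x ∈ S, ∀ y ∈ S, ops k x y ∈ S

/-- stages of the closure -/
def gen (ops : ℕ → G → G → G) (S : Set G) : ℕ → Set G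
  | 0 => S
  | n + 1 => gen ops S n ∪ ⋃ k, Set.image2 (ops k) (gen ops S n) (gen ops S n)

/-- the closure -/
def hull (ops : ℕ → G → G → G) (S : Set G) : Set G := ⋃ n, gen ops S n

theorem gen_mono_nat (ops : ℕ → G → G → G) (S : Set G) {m n : ℕ} (h : m ≤ n) :
    gen ops S m ⊆ gen ops S n := by
  induction h with
  | refl => exact subset_rfl
  | step _ ih => exact ih.trans Set.subset_union_left

theorem subset_hull (ops : ℕ → G → G → G) (S : Set G) : S ⊆ hull ops S :=
  fun _ hx => Set.mem_iUnion.2 ⟨0, hx⟩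

theorem cl_hull (ops : ℕ → G → G → G) (S : Set G) : Cl ops (hull ops S) := by
  intro k x hx y hy
  obtain ⟨m, hm⟩ := Set.mem_iUnion.1 hx
  obtain ⟨n, hn⟩ := Set.mem_iUnion.1 hy
  refine Set.mem_iUnion.2 ⟨max m n + 1, Or.inr (Set.mem_iUnion.2 ⟨k, ?_⟩)⟩
  exact ⟨x, gen_mono_nat ops S (le_max_left _ _) hm, y,
    gen_mono_nat ops S (le_max_right _ _) hn, rfl⟩

theorem hull_subset {ops : ℕ → G → G → G} {S M : Set G} (hM : Cl ops M) (h : S ⊆ M) :
    hull ops S ⊆ M := by
  refine Set.iUnion_subset fun n => ?_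
  induction n with
  | zero => exact h
  | succ n ih =>
    refine Set.union_subset ih (Set.iUnion_subset fun k => ?_)
    rintro _ ⟨x, hx, y, hy, rfl⟩
    exact hM k x (ih hx) y (ih hy)

theorem hull_mono (ops : ℕ → G → G → G) {S T : Set G} (h : S ⊆ T) :
    hull ops S ⊆ hull ops T :=
  hull_subset (cl_hull ops T) (h.trans (subset_hull ops T))

theorem mk_gen_le (ops : ℕ → G → G → G) (S : Set G) (n : ℕ) :
    #(gen ops S n) ≤ max #S ℵ₀ := by
  induction n with
  | zero => exact le_max_left _ _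
  | succ n ih =>
    have hinf : ℵ₀ ≤ max #S ℵ₀ := le_max_right _ _
    refine (mk_union_le _ _).trans ?_
    refine (add_le_add ih ?_).trans (add_eq_self hinf).le
    have h1 : ∀ k, #(Set.image2 (ops k) (gen ops S n) (gen ops S n)) ≤ max #S ℵ₀ := by
      intro k
      have : Set.image2 (ops k) (gen ops S n) (gen ops S n) =
          (fun p : G × G => ops k p.1 p.2) '' (gen ops S n ×ˢ gen ops S n) := by
        rw [Set.image_prod]
      rw [this]
      refine mk_image_le.trans ?_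
      rw [mk_setProd]
      exact (mul_le_mul' ih ih).trans (mul_eq_self hinf).le
    have h2 := mk_iUnion_le_lift (fun k : ℕ => Set.image2 (ops k) (gen ops S n) (gen ops S n))
    simp only [Cardinal.lift_uzero, mk_nat, Cardinal.lift_aleph0] at h2
    refine h2.trans ?_
    refine (mul_le_mul' hinf ?_).trans (mul_eq_self hinf).le
    exact ciSup_le' h1

theorem mk_hull_le (ops : ℕ → G → G → G) (S : Set G) :
    #(hull ops S) ≤ max #S ℵ₀ := by
  have hinf : ℵ₀ ≤ max #S ℵ₀ := le_max_right _ _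
  have h2 := mk_iUnion_le_lift (fun k : ℕ => gen ops S k)
  simp only [Cardinal.lift_uzero, mk_nat, Cardinal.lift_aleph0] at h2
  refine h2.trans ?_
  refine (mul_le_mul' hinf ?_).trans (mul_eq_self hinf).le
  exact ciSup_le' (mk_gen_le ops S)

end Closed

/-! ### Injective choice from countably many infinite sets -/

theorem exists_injective_choice_nat {G : Type u} (C : ℕ → Set G) (hC : ∀ n, (C n).Infinite) :
    ∃ f : ℕ → G, Function.Injective f ∧ ∀ n, f n ∈ C n := by
  classical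
  have key : ∀ (n : ℕ) (s : Finset G), ∃ x, x ∈ C n ∧ x ∉ s := fun n s =>
    (hC n).exists_notMem_finset s
  choose g hg1 hg2 using key
  let F : ℕ → Finset G := fun n => Nat.rec ∅ (fun k s => insert (g k s) s) n
  have hF : ∀ n, F (n + 1) = insert (g n (F n)) (F n) := fun n => rfl
  have hmono : ∀ m n, m ≤ n → F m ⊆ F n := by
    intro m n h
    induction h with
    | refl => exact subset_rfl
    | step _ ih => exact ih.trans (by rw [hF]; exact Finset.subset_insert _ _)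
  refine ⟨fun n => g n (F n), ?_, fun n => hg1 n _⟩
  have hlt : ∀ m n, m < n → g m (F m) ≠ g n (F n) := by
    intro m n h heq
    have h1 : g m (F m) ∈ F (m + 1) := by rw [hF]; exact Finset.mem_insert_self _ _
    have h2 : g m (F m) ∈ F n := hmono _ _ h h1
    rw [heq] at h2
    exact hg2 n (F n) h2
  intro m n h
  rcases lt_trichotomy m n with h' | h' | h'
  · exact absurd h (hlt m n h')
  · exact h'
  · exact absurd h.symm (hlt n m h')

theorem exists_injective_choice {G : Type u} {R : Type*} [Countable R] (C : R → Set G)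
    (hC : ∀ r, (C r).Infinite) :
    ∃ f : R → G, Function.Injective f ∧ ∀ r, f r ∈ C r := by
  classical
  obtain ⟨e, he⟩ := exists_injective_nat R
  rcases isEmpty_or_nonempty R with hR | hR
  · exact ⟨fun r => (IsEmpty.false r).elim, fun r => (IsEmpty.false r).elim,
      fun r => (IsEmpty.false r).elim⟩
  obtain ⟨f, hf, hf2⟩ := exists_injective_choice_nat (fun n => C (Function.invFun e n))
    (fun n => hC _)
  refine ⟨fun r => f (e r), hf.comp he, fun r => ?_⟩
  have := hf2 (e r)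
  rwa [Function.leftInverse_invFun he r] at this

/-! ### Independent elements -/

theorem exists_indep {G : Type u} [Group G] (hG : ℵ₀ < #G) :
    ∃ T : Set G, #T = #G ∧ ∀ x ∈ T, ∀ y ∈ T, ∀ z ∈ T, ∀ w ∈ T,
      x ≠ y → x ≠ z → x ≠ w → y ≠ z → y ≠ w → z ≠ w → x * y⁻¹ * z ≠ w := by
  classical
  let P : Set (Set G) := {T | ∀ x ∈ T, ∀ y ∈ T, ∀ z ∈ T, ∀ w ∈ T,
      x ≠ y → x ≠ z → x ≠ w → y ≠ z → y ≠ w → z ≠ w → x * y⁻¹ * z ≠ w}
  obtain ⟨T, hT⟩ : ∃ T, Maximal (· ∈ P) T := by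
    refine zorn_subset P ?_
    intro c hc hchain
    refine ⟨⋃₀ c, ?_, fun s hs => Set.subset_sUnion_of_mem hs⟩
    intro x hx y hy z hz w hw
    obtain ⟨A, hA, hxA⟩ := hx
    obtain ⟨B, hB, hyB⟩ := hy
    obtain ⟨C, hC, hzC⟩ := hz
    obtain ⟨D, hD, hwD⟩ := hw
    have hdir : DirectedOn (· ⊆ ·) c := hchain.directedOn
    obtain ⟨E, hE, hAE, hBE⟩ := hdir A hA B hB
    obtain ⟨F, hF, hCF, hDF⟩ := hdir C hC D hD
    obtain ⟨K, hK, hEK, hFK⟩ := hdir E hE F hF
    exact hc hK x (hEK (hAE hxA)) y (hEK (hBE hyB)) z (hFK (hCF hzC)) w (hFK (hDF hwD))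
  refine ⟨T, ?_, hT.prop⟩
  by_contra hne
  have hlt : #T < #G := lt_of_le_of_ne (mk_set_le T) hne
  -- the bad set
  let bad : Set G := (fun p : T × T × T => (p.1 : G) * (p.2.1 : G)⁻¹ * (p.2.2 : G)) '' Set.univ
  have hbad : #(bad ∪ T : Set G) < #G := by
    have h1 : Cardinal.mk bad ≤ max #T ℵ₀ := by
      refine mk_image_le.trans ?_
      rw [mk_univ]
      simp only [mk_prod, Cardinal.lift_id]
      have hinf : ℵ₀ ≤ max #T ℵ₀ := le_max_right _ _
      calc #T * (#T * #T) ≤ (max #T ℵ₀) * ((max #T ℵ₀) * (max #T ℵ₀)) :=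
            mul_le_mul' (le_max_left _ _) (mul_le_mul' (le_max_left _ _) (le_max_left _ _))
        _ = max #T ℵ₀ := by rw [mul_eq_self hinf, mul_eq_self hinf]
    refine (mk_union_le _ _).trans_lt ?_
    exact add_lt_of_lt hG.le (h1.trans_lt (max_lt hlt hG)) hlt
  obtain ⟨w, hw⟩ : ∃ w, w ∉ (bad ∪ T : Set G) := by
    by_contra hcon
    push Not at hcon
    have : (bad ∪ T : Set G) = Set.univ := Set.eq_univ_of_forall hcon
    rw [this, mk_univ] at hbad
    exact lt_irrefl _ hbad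
  have hwT : w ∉ T := fun h => hw (Or.inr h)
  have hwbad : ∀ x ∈ T, ∀ y ∈ T, ∀ z ∈ T, x * y⁻¹ * z ≠ w := by
    intro x hx y hy z hz h
    exact hw (Or.inl ⟨(⟨x, hx⟩, ⟨y, hy⟩, ⟨z, hz⟩), Set.mem_univ _, h⟩)
  have hins : insert w T ∈ P := by
    intro x hx y hy z hz v hv hxy hxz hxv hyz hyv hzv heq
    rcases hx with rfl | hx
    · -- x = w
      have hy' := hy.resolve_left (Ne.symm hxy)
      have hz' := hz.resolve_left (Ne.symm hxz)
      have hv' := hv.resolve_left (Ne.symm hxv)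
      refine hwbad v hv' z hz' y hy' ?_
      rw [← heq]; group
    · rcases hy with rfl | hy
      · have hz' := hz.resolve_left (Ne.symm hyz)
        have hv' := hv.resolve_left (Ne.symm hyv)
        refine hwbad z hz' v hv' x hx ?_
        rw [← heq]; group
      · rcases hz with rfl | hz
        · have hv' := hv.resolve_left (Ne.symm hzv)
          refine hwbad y hy x hx v hv' ?_
          rw [← heq]; group
        · rcases hv with rfl | hv
          · exact hwbad x hx y hy z hz heq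
          · exact hT.prop x hx y hy z hz v hv hxy hxz hxv hyz hyv hzv heq
  have := hT.eq_of_subset hins (Set.subset_insert w T)
  exact hwT (this ▸ Set.mem_insert w T)

/-- A sequence of functions whose quotients are injective. -/
theorem exists_seq {G : Type u} [Group G] (hG : ℵ₀ < #G) :
    ∃ s : ℕ → G → G, (∀ ξ, Function.Injective (fun n => s n ξ)) ∧
      (∀ m n, m ≠ n → Function.Injective (fun ξ => s m ξ * (s n ξ)⁻¹)) ∧
      (∀ m n, m ≠ n → Function.Injective (fun ξ => (s m ξ)⁻¹ * s n ξ)) := by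
  obtain ⟨T, hT, hind⟩ := exists_indep hG
  have hcard : #(ℕ × G) = #T := by
    rw [hT]
    simp only [mk_prod, Cardinal.lift_uzero, mk_nat, Cardinal.lift_aleph0]
    exact mul_eq_right hG.le hG.le aleph0_ne_zero
  obtain ⟨e⟩ := Cardinal.eq.1 hcard
  have hne : ∀ a b : ℕ × G, a ≠ b → (e a : G) ≠ (e b : G) := by
    intro a b hab h
    exact hab (e.injective (Subtype.ext h))
  refine ⟨fun n ξ => (e (n, ξ) : G), ?_, ?_, ?_⟩
  · intro ξ m n h
    by_contra hmn
    exact hne (m, ξ) (n, ξ) (by simpa using hmn) h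
  · intro m n hmn ξ η h
    by_contra hξη
    -- s m ξ (s n ξ)⁻¹ = s m η (s n η)⁻¹
    refine hind _ (e (m, ξ)).2 _ (e (n, ξ)).2 _ (e (n, η)).2 _ (e (m, η)).2
      (hne _ _ (by simp [hmn])) (hne _ _ (by simp [hmn])) (hne _ _ (by simp [hξη]))
      (hne _ _ (by simp [hξη])) (hne _ _ (by simp [hξη, hmn.symm]))
      (hne _ _ (by simp [hmn.symm])) ?_
    have h' : (e (m, ξ) : G) * (e (n, ξ) : G)⁻¹ = (e (m, η) : G) * (e (n, η) : G)⁻¹ := h
    rw [h']; group
  · intro m n hmn ξ η h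
    by_contra hξη
    have h' : (e (m, ξ) : G)⁻¹ * (e (n, ξ) : G) = (e (m, η) : G)⁻¹ * (e (n, η) : G) := h
    refine hind _ (e (m, η)).2 _ (e (m, ξ)).2 _ (e (n, ξ)).2 _ (e (n, η)).2
      (hne _ _ (by simp [Ne.symm hξη])) (hne _ _ (by simp [hmn]))
      (hne _ _ (by simp [hmn]))
      (hne _ _ (by simp [hmn])) (hne _ _ (by simp [hmn]))
      (hne _ _ (by simp [hξη])) ?_
    rw [mul_assoc, h']; group

/-! ### The colouring -/

section Colour

variable {G : Type u} [Group G]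

/-- the properties of the closed sets which are used -/
structure Good (s : ℕ → G → G) (N : Set G) : Prop where
  mul : ∀ x ∈ N, ∀ y ∈ N, x * y ∈ N
  inv : ∀ x ∈ N, x⁻¹ ∈ N
  seq : ∀ n, ∀ x ∈ N, s n x ∈ N
  rec1 : ∀ m n ξ, m ≠ n → s m ξ * (s n ξ)⁻¹ ∈ N → ξ ∈ N
  rec2 : ∀ m n ξ, m ≠ n → (s m ξ)⁻¹ * s n ξ ∈ N → ξ ∈ N

/-- There are countably many operations such that closed sets are good. -/
theorem exists_ops (s : ℕ → G → G)
    (h1 : ∀ m n, m ≠ n → Function.Injective (fun ξ => s m ξ * (s n ξ)⁻¹))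
    (h2 : ∀ m n, m ≠ n → Function.Injective (fun ξ => (s m ξ)⁻¹ * s n ξ)) :
    ∃ ops : ℕ → G → G → G, ∀ N, Cl ops N → Good s N := by
  classical
  -- operations indexed by `Fin 5 × ℕ × ℕ`
  let O : Fin 5 × ℕ × ℕ → G → G → G := fun i x y =>
    if i.1 = 0 then x * y
    else if i.1 = 1 then x⁻¹
    else if i.1 = 2 then s i.2.1 x
    else if i.1 = 3 then Function.invFun (fun ξ => s i.2.1 ξ * (s i.2.2 ξ)⁻¹) x
    else Function.invFun (fun ξ => (s i.2.1 ξ)⁻¹ * s i.2.2 ξ) x
  obtain ⟨e, he⟩ := exists_surjective_nat (Fin 5 × ℕ × ℕ)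
  refine ⟨fun k => O (e k), fun N hN => ?_⟩
  have hO : ∀ i, ∀ x ∈ N, ∀ y ∈ N, O i x y ∈ N := by
    intro i x hx y hy
    obtain ⟨k, rfl⟩ := he i
    exact hN k x hx y hy
  refine ⟨fun x hx y hy => ?_, fun x hx => ?_, fun n x hx => ?_, fun m n ξ hmn h => ?_,
    fun m n ξ hmn h => ?_⟩
  · simpa [O] using hO (0, 0, 0) x hx y hy
  · simpa [O] using hO (1, 0, 0) x hx x hx
  · simpa [O] using hO (2, n, 0) x hx x hx
  · have := hO (3, m, n) _ h _ h
    have h3 : Function.invFun (fun ξ => s m ξ * (s n ξ)⁻¹) (s m ξ * (s n ξ)⁻¹) = ξ :=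
      Function.leftInverse_invFun (h1 m n hmn) ξ
    simpa [O, h3] using this
  · have := hO (4, m, n) _ h _ h
    have h3 : Function.invFun (fun ξ => (s m ξ)⁻¹ * s n ξ) ((s m ξ)⁻¹ * s n ξ) = ξ :=
      Function.leftInverse_invFun (h2 m n hmn) ξ
    simpa [O, h3] using this

/-- all but one of the left candidates avoid a good set -/
theorem left_unique {s : ℕ → G → G} {N : Set G} (hN : Good s N) {ξ z : G}
    (hξz : ¬ (ξ ∈ N ∧ z ∈ N)) {m n : ℕ} (hm : s m ξ * z ∈ N) (hn : s n ξ * z ∈ N) : m = n := by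
  by_contra hmn
  have h : s m ξ * (s n ξ)⁻¹ ∈ N := by
    have := hN.mul _ hm _ (hN.inv _ hn)
    simpa [mul_assoc] using this
  have hξ : ξ ∈ N := hN.rec1 m n ξ hmn h
  have hz : z ∈ N := by
    have := hN.mul _ (hN.inv _ (hN.seq m ξ hξ)) _ hm
    simpa using this
  exact hξz ⟨hξ, hz⟩

/-- all but one of the right candidates avoid a good set -/
theorem right_unique {s : ℕ → G → G} {N : Set G} (hN : Good s N) {ξ z : G}
    (hξz : ¬ (ξ ∈ N ∧ z ∈ N)) {m n : ℕ} (hm : z * s m ξ ∈ N) (hn : z * s n ξ ∈ N) : m = n := by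
  by_contra hmn
  have h : (s m ξ)⁻¹ * s n ξ ∈ N := by
    have := hN.mul _ (hN.inv _ hm) _ hn
    simpa [mul_assoc] using this
  have hξ : ξ ∈ N := hN.rec2 m n ξ hmn h
  have hz : z ∈ N := by
    have := hN.mul _ hm _ (hN.inv _ (hN.seq m ξ hξ))
    simpa using this
  exact hξz ⟨hξ, hz⟩

omit [Group G] in
theorem infinite_candidates {M : Set G} {L : List (Set G)}
    (c : ℕ → G) (hc : Function.Injective c) (hcM : ∀ n, c n ∈ M)
    (hL : ∀ N ∈ L, ∀ m n, c m ∈ N → c n ∈ N → m = n) :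
    {x : G | x ∈ M ∧ (∀ N ∈ L, x ∉ N) ∧ ∃ n, x = c n}.Infinite := by
  classical
  have hfin : {n : ℕ | ∃ N ∈ L, c n ∈ N}.Finite := by
    have : {n : ℕ | ∃ N ∈ L, c n ∈ N} = ⋃ N ∈ {N | N ∈ L}, {n : ℕ | c n ∈ N} := by
      ext n; simp
    rw [this]
    refine Set.Finite.biUnion (List.finite_toSet L) ?_
    intro N hN
    refine Set.Subsingleton.finite ?_
    intro m hm n hn
    exact hL N hN m n hm hn
  have hinf : ({n : ℕ | ∃ N ∈ L, c n ∈ N}ᶜ).Infinite := hfin.infinite_compl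
  refine (hinf.image (hc.injOn)).mono ?_
  rintro _ ⟨n, hn, rfl⟩
  refine ⟨hcM n, fun N hN h => hn ⟨N, hN, h⟩, n, rfl⟩

/-- The main induction. -/
theorem exists_colouring {s : ℕ → G → G} (hs : ∀ ξ, Function.Injective (fun n => s n ξ))
    {ops : ℕ → G → G → G} (hops : ∀ N, Cl ops N → Good s N) (c : Cardinal.{u}) :
    ∀ M : Set G, #M = c → Cl ops M → ∀ L : List (Set G), (∀ N ∈ L, Cl ops N) →
    ∃ col : G → G, ∀ ξ ∈ M, ∀ z ∈ M, (∀ N ∈ L, ¬ (ξ ∈ N ∧ z ∈ N)) →
      (∃ n, s n ξ * z ∈ M ∧ (∀ N ∈ L, s n ξ * z ∉ N) ∧ col (s n ξ * z) = ξ) ∧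
      (∃ n, z * s n ξ ∈ M ∧ (∀ N ∈ L, z * s n ξ ∉ N) ∧ col (z * s n ξ) = ξ) := by
  classical
  induction c using WellFoundedLT.induction with
  | ind c ih =>
  intro M hMc hM L hL
  rcases le_or_gt c ℵ₀ with hc | hc
  · -- countable case
    have hMcount : M.Countable := by
      rw [← Cardinal.le_aleph0_iff_set_countable, hMc]; exact hc
    have : Countable M := hMcount.to_subtype
    let R := {p : M × M × Bool // ∀ N ∈ L, ¬ ((p.1 : G) ∈ N ∧ (p.2.1 : G) ∈ N)}
    let cand : R → ℕ → G := fun r n =>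
      if r.1.2.2 then s n r.1.1 * r.1.2.1 else r.1.2.1 * s n r.1.1
    let C : R → Set G := fun r => {x : G | x ∈ M ∧ (∀ N ∈ L, x ∉ N) ∧ ∃ n, x = cand r n}
    have hgM := hops M hM
    have hC : ∀ r, (C r).Infinite := by
      rintro ⟨⟨ξ, z, b⟩, hr⟩
      cases b with
      | true =>
        refine infinite_candidates (fun n => s n ξ * z) ?_ ?_ ?_
        · intro m n h
          exact hs ξ (mul_right_cancel h)
        · intro n
          exact hgM.mul _ (hgM.seq n _ ξ.2) _ z.2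
        · intro N hN m n hm hn
          exact left_unique (hops N (hL N hN)) (hr N hN) hm hn
      | false =>
        refine infinite_candidates (fun n => z * s n ξ) ?_ ?_ ?_
        · intro m n h
          exact hs ξ (mul_left_cancel h)
        · intro n
          exact hgM.mul _ z.2 _ (hgM.seq n _ ξ.2)
        · intro N hN m n hm hn
          exact right_unique (hops N (hL N hN)) (hr N hN) hm hn
    obtain ⟨f, hf, hfC⟩ := exists_injective_choice C hC
    let col : G → G := fun x => if h : ∃ r, f r = x then ((Classical.choose h).1.1 : G) else x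
    have hcol : ∀ r, col (f r) = r.1.1 := by
      intro r
      have h : ∃ r', f r' = f r := ⟨r, rfl⟩
      have h2 : Classical.choose h = r := hf (Classical.choose_spec h)
      simp only [col, dif_pos h, h2]
    refine ⟨col, fun ξ hξ z hz hξz => ⟨?_, ?_⟩⟩
    · let r : R := ⟨(⟨ξ, hξ⟩, ⟨z, hz⟩, true), hξz⟩
      obtain ⟨h1, h2, n, hn⟩ := hfC r
      have hn' : f r = s n ξ * z := hn
      refine ⟨n, hn' ▸ h1, hn' ▸ h2, ?_⟩
      rw [← hn', hcol]
    · let r : R := ⟨(⟨ξ, hξ⟩, ⟨z, hz⟩, false), hξz⟩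
      obtain ⟨h1, h2, n, hn⟩ := hfC r
      have hn' : f r = z * s n ξ := hn
      refine ⟨n, hn' ▸ h1, hn' ▸ h2, ?_⟩
      rw [← hn', hcol]
  · -- uncountable case
    obtain ⟨lin, wf, hord⟩ := Cardinal.exists_ord_eq_type_lt M
    -- the chain
    let S : M → Set G := fun a => Subtype.val '' {b : M | b ≤ a}
    let H : M → Set G := fun a => hull ops (S a)
    let H' : M → Set G := fun a => ⋃ b ∈ {b : M | b < a}, H b
    have hSM : ∀ a, S a ⊆ M := by
      rintro a _ ⟨b, _, rfl⟩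
      exact b.2
    have hHM : ∀ a, H a ⊆ M := fun a => hull_subset hM (hSM a)
    have hHmono : ∀ a b, a ≤ b → H a ⊆ H b := by
      intro a b hab
      refine hull_mono ops ?_
      rintro _ ⟨x, hx, rfl⟩
      exact ⟨x, le_trans hx hab, rfl⟩
    have hHcl : ∀ a, Cl ops (H a) := fun a => cl_hull ops _
    have hH'cl : ∀ a, Cl ops (H' a) := by
      intro a k x hx y hy
      simp only [H', Set.mem_iUnion, Set.mem_ofPred_eq, exists_prop] at hx hy ⊢
      obtain ⟨b, hb, hxb⟩ := hx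
      obtain ⟨b', hb', hyb⟩ := hy
      refine ⟨max b b', max_lt hb hb', ?_⟩
      exact hHcl _ k x (hHmono _ _ (le_max_left _ _) hxb) y (hHmono _ _ (le_max_right _ _) hyb)
    have hmemH : ∀ a : M, (a : G) ∈ H a := fun a =>
      subset_hull ops _ ⟨a, le_refl a, rfl⟩
    have hcard : ∀ a, #(H a) < c := by
      intro a
      refine (mk_hull_le ops _).trans_lt (max_lt ?_ hc)
      refine mk_image_le.trans_lt ?_
      have h1 : {b : M | b ≤ a} = insert a (Set.Iio a) := by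
        ext b; simp [le_iff_eq_or_lt]
      rw [h1]
      refine (mk_insert_le).trans_lt ?_
      refine add_lt_of_lt hc.le ?_ (lt_of_lt_of_le one_lt_aleph0 hc.le)
      have := Cardinal.mk_Iio_lt a hord
      rwa [hMc] at this
    have hex : ∀ a : M, ∃ col : G → G, ∀ ξ ∈ H a, ∀ z ∈ H a,
        (∀ N ∈ H' a :: L, ¬ (ξ ∈ N ∧ z ∈ N)) →
        (∃ n, s n ξ * z ∈ H a ∧ (∀ N ∈ H' a :: L, s n ξ * z ∉ N) ∧ col (s n ξ * z) = ξ) ∧
        (∃ n, z * s n ξ ∈ H a ∧ (∀ N ∈ H' a :: L, z * s n ξ ∉ N) ∧ col (z * s n ξ) = ξ) := by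
      intro a
      refine ih _ (hcard a) (H a) rfl (hHcl a) (H' a :: L) ?_
      intro N hN
      rcases List.mem_cons.1 hN with rfl | hN
      · exact hH'cl a
      · exact hL N hN
    choose cc hcc using hex
    -- the level of an element
    have hlev : ∀ x ∈ M, ∃ a : M, x ∈ H a ∧ ∀ b, b < a → x ∉ H b := by
      intro x hx
      have hne : {a : M | x ∈ H a}.Nonempty := ⟨⟨x, hx⟩, hmemH ⟨x, hx⟩⟩
      refine ⟨wf.wf.min _ hne, wf.wf.min_mem _ hne, fun b hb h => ?_⟩
      exact wf.wf.not_lt_min _ h hb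
    let col : G → G := fun x =>
      if h : x ∈ M then cc (Classical.choose (hlev x h)) x else x
    have hcol : ∀ (a : M) (x : G), x ∈ H a → x ∉ H' a → col x = cc a x := by
      intro a x hx hx'
      have hxM : x ∈ M := hHM a hx
      have h1 := Classical.choose_spec (hlev x hxM)
      have h2 : Classical.choose (hlev x hxM) = a := by
        rcases lt_trichotomy (Classical.choose (hlev x hxM)) a with h | h | h
        · exfalso
          apply hx'
          simp only [H', Set.mem_iUnion, Set.mem_ofPred_eq, exists_prop]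
          exact ⟨_, h, h1.1⟩
        · exact h
        · exact absurd hx (h1.2 a h)
      simp only [col, dif_pos hxM, h2]
    refine ⟨col, fun ξ hξ z hz hξz => ?_⟩
    have hne : {a : M | ξ ∈ H a ∧ z ∈ H a}.Nonempty := by
      refine ⟨max ⟨ξ, hξ⟩ ⟨z, hz⟩, hHmono _ _ (le_max_left _ _) (hmemH ⟨ξ, hξ⟩),
        hHmono _ _ (le_max_right _ _) (hmemH ⟨z, hz⟩)⟩
    obtain ⟨a, ⟨hξa, hza⟩, hmin⟩ : ∃ a : M, (ξ ∈ H a ∧ z ∈ H a) ∧
        ∀ b, b < a → ¬ (ξ ∈ H b ∧ z ∈ H b) :=
      ⟨wf.wf.min _ hne, wf.wf.min_mem _ hne, fun b hb h => wf.wf.not_lt_min _ h hb⟩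
    have hreq : ∀ N ∈ H' a :: L, ¬ (ξ ∈ N ∧ z ∈ N) := by
      intro N hN
      rcases List.mem_cons.1 hN with rfl | hN
      · rintro ⟨h1, h2⟩
        simp only [H', Set.mem_iUnion, Set.mem_ofPred_eq, exists_prop] at h1 h2
        obtain ⟨b, hb, hxb⟩ := h1
        obtain ⟨b', hb', hyb⟩ := h2
        exact hmin (max b b') (max_lt hb hb')
          ⟨hHmono _ _ (le_max_left _ _) hxb, hHmono _ _ (le_max_right _ _) hyb⟩
      · exact hξz N hN
    obtain ⟨⟨n, hn1, hn2, hn3⟩, ⟨n', hn1', hn2', hn3'⟩⟩ := hcc a ξ hξa z hza hreq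
    refine ⟨⟨n, hHM a hn1, fun N hN => hn2 N (List.mem_cons_of_mem _ hN), ?_⟩,
      ⟨n', hHM a hn1', fun N hN => hn2' N (List.mem_cons_of_mem _ hN), ?_⟩⟩
    · rw [hcol a _ hn1 (hn2 _ List.mem_cons_self), hn3]
    · rw [hcol a _ hn1' (hn2' _ List.mem_cons_self), hn3']

end Colour

/-- A colouring by group elements with all colour classes `ℵ₁`-large. -/
theorem exists_colour {G : Type u} [Group G] [Infinite G] :
    ∃ col : G → G, ∀ ξ, IsLarge (Cardinal.aleph 1) (col ⁻¹' {ξ}) := by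
  rcases le_or_gt #G ℵ₀ with hG | hG
  · -- countable groups: singletons
    refine ⟨id, fun ξ => ⟨⟨Set.univ, ?_, ?_⟩, ⟨Set.univ, ?_, ?_⟩⟩⟩
    · rw [mk_univ, Cardinal.lt_aleph_one_iff]; exact hG
    · refine Set.eq_univ_of_forall fun g => Set.mem_mul.2 ⟨g * ξ⁻¹, Set.mem_univ _, ξ, ?_, ?_⟩
      · simp
      · group
    · rw [mk_univ, Cardinal.lt_aleph_one_iff]; exact hG
    · refine Set.eq_univ_of_forall fun g => Set.mem_mul.2 ⟨ξ, ?_, ξ⁻¹ * g, Set.mem_univ _, ?_⟩
      · simp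
      · group
  · obtain ⟨s, hs, h1, h2⟩ := exists_seq hG
    obtain ⟨ops, hops⟩ := exists_ops s h1 h2
    obtain ⟨col, hcol⟩ := exists_colouring hs hops #(Set.univ : Set G) Set.univ rfl
      (fun _ _ _ _ _ => Set.mem_univ _) [] (by simp)
    refine ⟨col, fun ξ => ⟨⟨Set.range (fun n => (s n ξ)⁻¹), ?_, ?_⟩,
      ⟨Set.range (fun n => (s n ξ)⁻¹), ?_, ?_⟩⟩⟩
    · rw [Cardinal.lt_aleph_one_iff, Cardinal.le_aleph0_iff_set_countable]
      exact Set.countable_range _
    · refine Set.eq_univ_of_forall fun z => ?_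
      obtain ⟨⟨n, -, -, hn⟩, -⟩ := hcol ξ (Set.mem_univ _) z (Set.mem_univ _) (by simp)
      exact Set.mem_mul.2 ⟨(s n ξ)⁻¹, ⟨n, rfl⟩, s n ξ * z, hn, by group⟩
    · rw [Cardinal.lt_aleph_one_iff, Cardinal.le_aleph0_iff_set_countable]
      exact Set.countable_range _
    · refine Set.eq_univ_of_forall fun z => ?_
      obtain ⟨-, ⟨n, -, -, hn⟩⟩ := hcol ξ (Set.mem_univ _) z (Set.mem_univ _) (by simp)
      exact Set.mem_mul.2 ⟨z * s n ξ, hn, (s n ξ)⁻¹, ⟨n, rfl⟩, by group⟩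

/-- Every infinite group `G` has a partition into `|G|` many `ℵ₁`-large subsets. -/
theorem result (G : Type u) [Group G] [Infinite G] :
    ∃ P : Set (Set G), Setoid.IsPartition P ∧ #P = #G ∧
      ∀ A ∈ P, IsLarge (Cardinal.aleph 1) A := by
  obtain ⟨col, hcol⟩ := exists_colour (G := G)
  have hne : ∀ ξ, (col ⁻¹' {ξ}).Nonempty := by
    intro ξ
    obtain ⟨⟨F, -, hF⟩, -⟩ := hcol ξ
    have h1 : (1 : G) ∈ F * (col ⁻¹' {ξ}) := by rw [hF]; exact Set.mem_univ _
    obtain ⟨_, _, a, ha, _⟩ := Set.mem_mul.1 h1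
    exact ⟨a, ha⟩
  have hinj : Function.Injective (fun ξ : G => col ⁻¹' {ξ}) := by
    intro ξ η h
    obtain ⟨a, ha⟩ := hne ξ
    have ha' : a ∈ col ⁻¹' {η} := by
      have : col ⁻¹' {ξ} = col ⁻¹' {η} := h
      rw [← this]; exact ha
    exact (Set.mem_singleton_iff.1 ha).symm.trans (Set.mem_singleton_iff.1 ha')
  refine ⟨Set.range (fun ξ : G => col ⁻¹' {ξ}), ⟨?_, ?_⟩, ?_, ?_⟩
  · rintro ⟨ξ, hξ⟩
    have := hne ξ
    simp only at hξ
    rw [hξ] at this
    exact Set.not_nonempty_empty this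
  · intro a
    refine ⟨col ⁻¹' {col a}, ⟨⟨col a, rfl⟩, rfl⟩, ?_⟩
    rintro _ ⟨⟨ξ, rfl⟩, hξ⟩
    have : col a = ξ := hξ
    rw [this]
  · exact mk_range_eq _ hinj
  · rintro _ ⟨ξ, rfl⟩
    exact hcol ξ

end Pool.Agent.Results.MP_e349a0_al.TwoSidedPartition
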